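import Pool.Agent.X240.BM.Final

/-!
# The geometric crystalline Breuil-Mezard conjecture as a system of difference equations

`K` is a finite extension of `ℚ_p` with residue degree `f` and ramification index `e`, residue field
`k`, and `d = N + 1`. The embeddings of `K` are numbered by the pairs `(a, b)`, `a < f`, `b < e`, such
that the residue embedding of `(a, b)` is the `p ^ a`-th power of that of `(0, 0)`. A regular tuple of
labelled Hodge-Tate weights is a family `ξ` of strictly decreasing vectors.

`Z ξ` stands for the underlying cycle of the special fibre of the stack of the crystalline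
representations with Hodge-Tate weights `ξ`, in the free abelian group `A` on the irreducible
components; the theorem is true for arbitrary elements `Z ξ` of an arbitrary abelian group. They are
extended to all the families `ξ` of integral vectors as an alternating function `altExt Z ξ`.

Theorem. There are cycles `Z_V`, `V` the Serre weights, with `Z ξ = ∑ n_V(ξ) Z_V` for all regular
Hodge-Tate weights `ξ` (Q1 for `K` and `d`) if and only if for all regular `ξ`, all embeddings `σ` and
all `1 ≤ i ≤ d`

  `∑_{|S| = i} Z (ξ + p ε_S at σ) = ∑_{|S| = i} Z (ξ + ε_S at σ')`, if `σ = (a, 0)`,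
  `∑_{|S| = i} Z (ξ + ε_S at σ) = ∑_{|S| = i} Z (ξ + ε_S at σ')`, if `σ = (a, b)`, `b ≠ 0`,

with `σ' = (a + 1, 0)` in the first and `σ' = (a, 0)` in the second case, `S` running through the
subsets of `{1, …, d}` and `ε_S` its indicator; so with the shift operators `T` of the coordinates
these are the equations `e_i (T_σ ^ p) = e_i (T_σ')`, `e_i (T_σ) = e_i (T_σ')` with the elementary
symmetric functions. The cycles `Z_V` are then unique. The equations are linear relations between at
most `2 * binom(d, i)` of the cycles `Z ξ` each, and the coefficients are `±1`.

The known facts on the Grothendieck ring of `GL_d(k)` which are used are collected in `WeightRing`.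
That the classes of the restricted weights are a basis is proved here: an alternating solution of
the equations which is zero at the restricted weights is zero (induction on `∑ |ξ σ i - ξ σ j|`).
-/

set_option autoImplicit false

namespace Pool.Agent.Results.MP_4c60d4_nt.DifferenceEquations

open Pool.Agent.X240.BM

/-- The conjecture for `K` and `d = N + 1` is equivalent to the difference equations; the cycles are
unique. -/
theorem result (p f e N : ℕ) [NeZero f] [NeZero e] (hp : p.Prime)
    (W : Type) [Fintype W] [Nonempty W] (R : Type) [CommRing R]
    (D : WeightRing (Fin f × Fin e) W N nextEmb (step p) (0, 0) ((p : ℤ) ^ f - 1) R)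
    (A : Type) [AddCommGroup A] (Z : Wt (Fin f × Fin e) (N + 1) → A) :
    ((∃ c : W → A, HasCrystallineCycles D Z c) ↔ HodgeEq nextEmb (step p) Z) ∧
    ((∃! c : W → A, HasCrystallineCycles D Z c) ↔ HodgeEq nextEmb (step p) Z) := by
  have hS := shape_field p f e hp.two_le
  refine ⟨⟨?_, fun h => ((crys_iff hS D Z).mpr h).exists⟩, crys_iff hS D Z⟩
  rintro ⟨c, hc⟩
  refine (hodgeEq_iff _ _ _).mpr ((cycles_iff hS D (fun _ : Unit => (1 : R)) () rfl
    (fun _ => Z)).mp ⟨c, (crys_iff_cycles D Z c).mp hc⟩ |>.1 ())

end Pool.Agent.Results.MP_4c60d4_nt.DifferenceEquations
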