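import Pool.Agent.X240.BM.OneEmb

/-!
# The geometric crystalline Breuil-Mezard conjecture: reduction to Hodge types in one embedding

`K` is a finite extension of `ℚ_p`, its residue field `k` has `q = p ^ f` elements, `d = N + 1`. Choose
any embedding `σ₀` of `K`; the other embeddings are numbered by `s < r = [K : ℚ_p] - 1`, and the residue
embedding of `s` is the `p ^ (a s)`-th power of the one of `σ₀`. A regular tuple of labelled
Hodge-Tate weights is a strictly decreasing vector `x` (at `σ₀`) together with a family `η` of strictly
decreasing vectors (at the other embeddings). Let `ρ = (d - 1, …, 0)`, the minimal weights.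

`Z η x` stands for the underlying cycle of the special fibre of the stack of the crystalline
representations with these Hodge-Tate weights; the theorem is true for arbitrary elements of an
arbitrary abelian group. Let `E` be the alternating extension to all integral vectors of the function
`x ↦ Z ρ x` (the weights are minimal at all embeddings but `σ₀`).

Theorem. (1) There are cycles `Z_V`, `V` the Serre weights, with the property of the conjecture for
all the Hodge-Tate weights which are minimal outside `σ₀` if and only if
`∑_{|S| = i} E(x + q ε_S) = ∑_{|S| = i} E(x + ε_S)` for all `x` and `1 ≤ i ≤ d`, that is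
`e_i (T ^ q) E = e_i (T) E` with the shift operators `T` of the coordinates; then the `Z_V` are unique.
So the weights which are concentrated in one embedding already determine all the `Z_V`.

(2) The whole conjecture for `K` and `d` (Q1) holds if and only if these equations in one vector
variable hold and for all Hodge-Tate weights

  `Z η x = ∑ (∏_s m_{η_s}(ν_s)) E(x + ∑_s p ^ (a s) ν_s)`,

the sum over the families `(ν_s)` of weights of the algebraic representations with the parameters
`η_s`, with their multiplicities `m_{η_s}(ν_s)`: so the cycles are given by those which are minimal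
outside `σ₀`, by a formula of the shape of Brauer's formula with nonnegative coefficients. For
example, if `η_s = ρ + (1, …, 1, 0, …, 0)` with `i` ones for one `s` and `η_s = ρ` for the other ones,
then `Z η x = ∑_{|S| = i} E(x + p ^ (a s) ε_S)`.

The known facts on the Grothendieck ring of `GL_d(k)` are hypotheses: `WeightRing` (for the algebraic
representations of the embedding `σ₀`: Serre weights are a basis, Brauer's formula for the exterior
powers and their twists by `q`, this twist is trivial, generation, number of Serre weights) and Brauer's
formula `hb` for the product with an algebraic representation of another embedding.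
-/

set_option autoImplicit false

namespace Pool.Agent.Results.MP_4c60d4_nt.OneEmbedding

open Pool.Agent.X240.BM

/-- (1) The conjecture for the Hodge-Tate weights which are minimal outside one embedding. (2) The
whole conjecture for `K` and `d = N + 1`. -/
theorem result (p f N r : ℕ) (hp : p.Prime) (hf : 1 ≤ f)
    (W : Type) [Fintype W] [Nonempty W] (R : Type) [CommRing R]
    (D : WeightRing Unit W N id (fun _ => ((p ^ f : ℕ) : ℤ)) () (((p ^ f : ℕ) : ℤ) - 1) R)
    (a : Fin r → ℕ) (tw : Fin r → (Fin (N + 1) → ℤ) → R) (hone : ∀ s, tw s (rho N) = 1)
    (m : (Fin (N + 1) → ℤ) → (Fin (N + 1) → ℤ) →₀ ℤ)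
    (hb : ∀ (s : Fin r) (u x : Fin (N + 1) → ℤ), StrictAnti u →
      D.cls (fun _ => x) * tw s u =
        (m u).sum fun ν k => k • D.cls fun _ j => x j + (p : ℤ) ^ a s * ν j)
    (A : Type) [AddCommGroup A] (Z : (Fin r → Fin (N + 1) → ℤ) → (Fin (N + 1) → ℤ) → A) :
    ((∃! c : W → A, HasCrystallineCycles D
        (fun ξ : Wt Unit (N + 1) => Z (fun _ => rho N) (ξ ())) c) ↔
      HodgeEq id (fun _ => ((p ^ f : ℕ) : ℤ))
        (fun ξ : Wt Unit (N + 1) => Z (fun _ => rho N) (ξ ()))) ∧
    ((∃ c : W → A, ∀ η, (∀ s, StrictAnti (η s)) → ∀ x, StrictAnti x →
        Z η x = ∑ V, D.serre.repr (D.cls (fun _ => x) * ∏ s, tw s (η s)) V • c V) ↔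
      HodgeEq id (fun _ => ((p ^ f : ℕ) : ℤ))
        (fun ξ : Wt Unit (N + 1) => Z (fun _ => rho N) (ξ ())) ∧
      ∀ η, (∀ s, StrictAnti (η s)) → ∀ x, StrictAnti x →
        Z η x = concSum m (fun s => (p : ℤ) ^ a s) η (List.finRange r)
          (fun y => altExt (fun ξ : Wt Unit (N + 1) => Z (fun _ => rho N) (ξ ())) fun _ => y) x) := by
  have h1 : 2 ≤ p ^ f := by
    calc 2 ≤ p := hp.two_le
      _ = p ^ 1 := (pow_one p).symm
      _ ≤ p ^ f := Nat.pow_le_pow_right hp.pos hf
  have hS := shape_Qp (p ^ f) h1
  exact ⟨crys_iff hS D _, one_embedding hS D tw hone m _ hb Z⟩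

end Pool.Agent.Results.MP_4c60d4_nt.OneEmbedding
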